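import Mathlib
import Pool.Agent.H59.FX2

set_option autoImplicit false

namespace Pool.Agent.Results.MP_152764_nt.Five

/-- For every `c` with `0 < c < 1 / log (607/500)` (about 5.157), the integers whose `5x+1`
orbit reaches 1 in `k ≥ 1` steps with `k < c log n` have natural density zero; quantitatively
their number below `N` is at most `C * N ^ (c * log (607/500))` with an absolute constant `C`. -/
theorem result :
    (∃ C : ℝ, ∀ (c : ℝ) (N : ℕ), 0 < c → 1 ≤ N →
      (({n : ℕ | n < N ∧ ∃ k : ℕ, 1 ≤ k ∧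
          (fun m : ℕ => if m % 2 = 0 then m / 2 else (5 * m + 1) / 2)^[k] n = 1 ∧
          (k : ℝ) < c * Real.log n}.ncard : ℝ))
        ≤ C * (N : ℝ) ^ (c * Real.log (607 / 500))) ∧
    ∀ c : ℝ, 0 < c → c < 1 / Real.log (607 / 500) →
      Filter.Tendsto
        (fun N : ℕ =>
          (({n : ℕ | n < N ∧ ∃ k : ℕ, 1 ≤ k ∧
              (fun m : ℕ => if m % 2 = 0 then m / 2 else (5 * m + 1) / 2)^[k] n = 1 ∧
              (k : ℝ) < c * Real.log n}.ncard : ℝ) / (N : ℝ)))
        Filter.atTop (nhds 0) := by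
  refine ⟨?_, fun c hc hc' => Pool.Agent.H59.FX.main c hc hc'⟩
  obtain ⟨C, _, h⟩ := Pool.Agent.H59.FX.count_le
  exact ⟨C, h⟩

end Pool.Agent.Results.MP_152764_nt.Five
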